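import Pool.Agent.Helper42.PQ.Spec
import Pool.Agent.Helper42.PQ.Base

/-! PQ part L3: `k = 3`, all basic nodes are connected. -/

set_option autoImplicit false

namespace Pool.Agent.Helper48.PQ.L3

open Finset Pool.Agent.Helper42.PQ

theorem main : S_L3 := by
  intro ι _ _ u r d D hr hc hs p q hp hq
  classical
  let κ := {i // i ∈ D}
  let u' : κ → ℕ := fun i => u i
  let em : κ ↪ ι := Function.Embedding.subtype _
  let F : Finset κ × κ → Finset ι × ι := fun z => (z.1.map em, z.2)
  have hsg : ∀ P : Finset κ, sg u (P.map em) = sg u' P := fun P => Finset.sum_map P em u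
  have hem : ∀ (P : Finset κ) (x : κ), (x : ι) ∈ P.map em ↔ x ∈ P := by
    intro P x
    exact Finset.mem_map' em
  have hBn : ∀ z : Finset κ × κ, Pool.Agent.Helper46.PV.Bn u' r d z.1 z.2 → Nd u r d D (F z) := by
    rintro ⟨P, x⟩ ⟨h1, h2, h3, h4⟩
    refine ⟨?_, x.2, ?_, ?_, ?_, ?_⟩
    · intro i hi
      obtain ⟨j, _, rfl⟩ := Finset.mem_map.1 hi
      exact j.2
    · change (P.map em).card = r
      rw [Finset.card_map]
      exact h1
    · exact fun h => h2 ((hem P x).1 h)
    · exact (hsg P).le.trans h3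
    · change d ≤ sg u (P.map em) + u x
      rw [hsg]
      exact h4
  have hAd : ∀ z z' : Finset κ × κ, Pool.Agent.Helper46.PV.Ad u' r d z z' →
      NAd u r d D (F z) (F z') := by
    rintro ⟨P, x⟩ ⟨Q, y⟩ ⟨h1, h2, h3, h4, h5, h6⟩
    refine ⟨hBn _ h1, hBn _ h2, ?_, ?_, ?_, ?_⟩
    · exact (Finset.disjoint_map em).2 h3
    · exact fun h => h4 ((hem Q x).1 h)
    · exact fun h => h5 ((hem P y).1 h)
    · intro hxy
      change 2 * d ≤ sg u (P.map em) + sg u (Q.map em) + u x
      rw [hsg, hsg]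
      exact h6 (Subtype.ext hxy)
  have hCn : ∀ z z' : Finset κ × κ, Pool.Agent.Helper46.PV.Cn u' r d z z' →
      NCn u r d D (F z) (F z') := by
    intro z z' h
    induction h with
    | rel a b h => exact Relation.EqvGen.rel _ _ (hAd _ _ h)
    | refl a => exact Relation.EqvGen.refl _
    | symm a b _ ih => exact Relation.EqvGen.symm _ _ ih
    | trans a b c _ _ ih1 ih2 => exact Relation.EqvGen.trans _ _ _ ih1 ih2
  have hlift : ∀ p : Finset ι × ι, Nd u r d D p →
      ∃ z : Finset κ × κ, F z = p ∧ Pool.Agent.Helper46.PV.Bn u' r d z.1 z.2 := by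
    rintro ⟨P, x⟩ ⟨h1, h2, h3, h4, h5, h6⟩
    have hP : (P.subtype (fun i => i ∈ D)).map em = P := by
      rw [Finset.subtype_map]
      exact Finset.filter_true_of_mem h1
    refine ⟨(P.subtype (fun i => i ∈ D), ⟨x, h2⟩), ?_, ?_, ?_, ?_, ?_⟩
    · change ((P.subtype (fun i => i ∈ D)).map em, x) = (P, x)
      rw [hP]
    · rw [← Finset.card_map em, hP]
      exact h3
    · intro h
      exact h4 (Finset.mem_subtype.1 h)
    · rw [← hsg, hP]
      exact h5
    · change d ≤ sg u' (P.subtype (fun i => i ∈ D)) + u x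
      rw [← hsg, hP]
      exact h6
  obtain ⟨z, rfl, hz⟩ := hlift p hp
  obtain ⟨z', rfl, hz'⟩ := hlift q hq
  refine hCn z z' ?_
  have hcard : Fintype.card κ = 3 * r + 1 := by
    rw [Fintype.card_coe]
    exact hc
  have hsum : ∑ i, u' i = 3 * d := by
    rw [← hs]
    exact Finset.sum_coe_sort D u
  exact Pool.Agent.Helper46.PV.nodes_conn hcard hr hsum z.1 z'.1 z.2 z'.2 hz hz'

end Pool.Agent.Helper48.PQ.L3
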