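import Pool.Agent.Helper42.PQ.Spec3

/-!
PQ, parts C1 and C2 (finite checks).
-/

set_option autoImplicit false

namespace Pool.Agent.Helper48.PQ.C12

open Pool.Agent.Helper42.PQ

/-- the condition on `u` -/
def cu (d u0 u1 u2 u3 : ℕ) : Bool :=
  decide (1 ≤ u0) && decide (1 ≤ u1) && decide (1 ≤ u2) && decide (1 ≤ u3) &&
    decide (u1 + u2 + u3 < d) && decide (u0 + u2 + u3 < d) && decide (u0 + u1 + u3 < d) &&
    decide (u0 + u1 + u2 < d)

/-- pair sums -/
def ps (u0 u1 u2 u3 : ℕ) : List ℕ := [u0 + u1, u0 + u2, u0 + u3, u1 + u2, u1 + u3, u2 + u3]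

/-- the test -/
def ct (d u0 u1 u2 u3 v0 v1 v2 v3 : ℕ) : Bool :=
  !((u0 + u1 + u2 + u3 == v0 + v1 + v2 + v3) && cu d v0 v1 v2 v3) ||
    (ps u0 u1 u2 u3).any (fun p => [v0, v1, v2, v3].any fun q => p + q == d) ||
    (ps v0 v1 v2 v3).any (fun p => [u0, u1, u2, u3].any fun q => p + q == d) ||
    (ps u0 u1 u2 u3).any (fun p => (ps v0 v1 v2 v3).any fun q => p == q)

def c1c (d : ℕ) : Bool :=
  (List.range 6).all fun u0 => (List.range 6).all fun u1 => (List.range 6).all fun u2 =>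
    (List.range 6).all fun u3 => !(cu d u0 u1 u2 u3) ||
      (List.range 6).all fun v0 => (List.range 6).all fun v1 => (List.range 6).all fun v2 =>
        (List.range 6).all fun v3 => ct d u0 u1 u2 u3 v0 v1 v2 v3

lemma c1_check7 : c1c 7 = true := by decide +kernel

lemma c1_check8 : c1c 8 = true := by decide +kernel

lemma c1_check (d : ℕ) (hd : d = 7 ∨ d = 8) (u0 u1 u2 u3 v0 v1 v2 v3 : ℕ) (h0 : u0 < 6)
    (h1 : u1 < 6) (h2 : u2 < 6) (h3 : u3 < 6) (g0 : v0 < 6) (g1 : v1 < 6) (g2 : v2 < 6)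
    (g3 : v3 < 6) (hu : cu d u0 u1 u2 u3 = true) : ct d u0 u1 u2 u3 v0 v1 v2 v3 = true := by
  have h : c1c d = true := by
    rcases hd with rfl | rfl
    exacts [c1_check7, c1_check8]
  simp only [c1c, List.all_eq_true, List.mem_range, Bool.or_eq_true] at h
  have := h u0 h0 u1 h1 u2 h2 u3 h3
  rcases this with h' | h'
  · rw [hu] at h'
    simp at h'
  · exact h' v0 g0 v1 g1 v2 g2 v3 g3

lemma pair_mem (u : Fin 4 → ℕ) (p : ℕ)
    (h : p ∈ [u 0 + u 1, u 0 + u 2, u 0 + u 3, u 1 + u 2, u 1 + u 3, u 2 + u 3]) :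
    ∃ i j, i ≠ j ∧ p = u i + u j := by
  simp only [List.mem_cons, List.not_mem_nil, or_false] at h
  rcases h with h | h | h | h | h | h
  · exact ⟨0, 1, by decide, h⟩
  · exact ⟨0, 2, by decide, h⟩
  · exact ⟨0, 3, by decide, h⟩
  · exact ⟨1, 2, by decide, h⟩
  · exact ⟨1, 3, by decide, h⟩
  · exact ⟨2, 3, by decide, h⟩

lemma elt_mem (u : Fin 4 → ℕ) (p : ℕ) (h : p ∈ [u 0, u 1, u 2, u 3]) : ∃ i, p = u i := by
  simp only [List.mem_cons, List.not_mem_nil, or_false] at h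
  rcases h with h | h | h | h
  exacts [⟨0, h⟩, ⟨1, h⟩, ⟨2, h⟩, ⟨3, h⟩]

theorem c1 : S_C1 := by
  intro d hd u v hu hv hs hu3 hv3 huv hvu
  simp only [Fin.sum_univ_four] at hs hu3 hv3
  have a0 := hu 0
  have a1 := hu 1
  have a2 := hu 2
  have a3 := hu 3
  have b0 := hv 0
  have b1 := hv 1
  have b2 := hv 2
  have b3 := hv 3
  have c0 := hu3 0
  have c1 := hu3 1
  have c2 := hu3 2
  have c3 := hu3 3
  have d0 := hv3 0
  have d1 := hv3 1
  have d2 := hv3 2
  have d3 := hv3 3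
  have h := c1_check d hd (u 0) (u 1) (u 2) (u 3) (v 0) (v 1) (v 2) (v 3) (by omega) (by omega)
    (by omega) (by omega) (by omega) (by omega) (by omega) (by omega)
    (by simp only [cu, Bool.and_eq_true, decide_eq_true_eq]; omega)
  simp only [ct, Bool.or_eq_true] at h
  rcases h with ((h | h) | h) | h
  · have e1 : (u 0 + u 1 + u 2 + u 3 == v 0 + v 1 + v 2 + v 3) = true := by
      rw [beq_iff_eq]; omega
    have e2 : cu d (v 0) (v 1) (v 2) (v 3) = true := by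
      simp only [cu, Bool.and_eq_true, decide_eq_true_eq]; omega
    rw [e1, e2] at h
    simp at h
  · exfalso
    simp only [List.any_eq_true, beq_iff_eq] at h
    obtain ⟨p, hp, q, hq, hpq⟩ := h
    obtain ⟨i, j, hij, rfl⟩ := pair_mem u p hp
    obtain ⟨k, rfl⟩ := elt_mem v q hq
    exact huv i j k hij hpq
  · exfalso
    simp only [List.any_eq_true, beq_iff_eq] at h
    obtain ⟨p, hp, q, hq, hpq⟩ := h
    obtain ⟨i, j, hij, rfl⟩ := pair_mem v p hp
    obtain ⟨k, rfl⟩ := elt_mem u q hq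
    exact hvu i j k hij hpq
  · simp only [List.any_eq_true, beq_iff_eq] at h
    obtain ⟨p, hp, q, hq, hpq⟩ := h
    obtain ⟨i, j, hij, h1⟩ := pair_mem u p hp
    obtain ⟨k, l, hkl, h2⟩ := pair_mem v q hq
    exact ⟨i, j, k, l, hij, hkl, by rw [← h1, ← h2, hpq]⟩

/-- the test for C2 -/
def c2t (d u0 u1 u2 v0 v1 v2 x : ℕ) : Bool :=
  !((u0 + u1 + u2 == v0 + v1 + v2) && decide (1 ≤ v0) && decide (1 ≤ v1) && decide (1 ≤ v2)
    && decide (1 ≤ x) && decide (u0 + u1 + u2 + x + 1 ≤ 2 * d)) ||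
    [u0 + u1, u0 + u2, u1 + u2].any (fun p => [v0, v1, v2].any fun q => p + q == d) ||
    [v0 + v1, v0 + v2, v1 + v2].any (fun p => [u0, u1, u2].any fun q => p + q == d) ||
    [u0, u1, u2].any (fun p => [v0, v1, v2].any fun q => (p == q) &&
      (decide (x + p ≤ d) || decide (2 * d - (u0 + u1 + u2 + x) + p ≤ d)))

def c2c (d : ℕ) : Bool :=
  (List.range 7).all fun u0 => (List.range 7).all fun u1 => (List.range 7).all fun u2 =>
    !(decide (1 ≤ u0) && decide (1 ≤ u1) && decide (1 ≤ u2) && decide (u0 + u1 + u2 < d)) ||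
      (List.range 7).all fun v0 => (List.range 7).all fun v1 => (List.range 7).all fun v2 =>
        (List.range 14).all fun x => c2t d u0 u1 u2 v0 v1 v2 x

lemma c2_check7 : c2c 7 = true := by decide +kernel

lemma c2_check8 : c2c 8 = true := by decide +kernel

lemma c2_check (d : ℕ) (hd : d = 7 ∨ d = 8) (u0 u1 u2 v0 v1 v2 x : ℕ) (h0 : u0 < 7)
    (h1 : u1 < 7) (h2 : u2 < 7) (g0 : v0 < 7) (g1 : v1 < 7) (g2 : v2 < 7) (hx : x < 14)
    (k0 : 1 ≤ u0) (k1 : 1 ≤ u1) (k2 : 1 ≤ u2) (k3 : u0 + u1 + u2 < d) :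
    c2t d u0 u1 u2 v0 v1 v2 x = true := by
  have h : c2c d = true := by
    rcases hd with rfl | rfl
    exacts [c2_check7, c2_check8]
  simp only [c2c, List.all_eq_true, List.mem_range, Bool.or_eq_true] at h
  have := h u0 h0 u1 h1 u2 h2
  rcases this with h' | h'
  · exfalso
    have e : (decide (1 ≤ u0) && decide (1 ≤ u1) && decide (1 ≤ u2) &&
        decide (u0 + u1 + u2 < d)) = true := by
      simp only [Bool.and_eq_true, decide_eq_true_eq]; omega
    rw [e] at h'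
    simp at h'
  · exact h' v0 g0 v1 g1 v2 g2 x hx

lemma pair_mem3 (u : Fin 3 → ℕ) (p : ℕ) (h : p ∈ [u 0 + u 1, u 0 + u 2, u 1 + u 2]) :
    ∃ i j, i ≠ j ∧ p = u i + u j := by
  simp only [List.mem_cons, List.not_mem_nil, or_false] at h
  rcases h with h | h | h
  · exact ⟨0, 1, by decide, h⟩
  · exact ⟨0, 2, by decide, h⟩
  · exact ⟨1, 2, by decide, h⟩

lemma elt_mem3 (u : Fin 3 → ℕ) (p : ℕ) (h : p ∈ [u 0, u 1, u 2]) : ∃ i, p = u i := by
  simp only [List.mem_cons, List.not_mem_nil, or_false] at h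
  rcases h with h | h | h
  exacts [⟨0, h⟩, ⟨1, h⟩, ⟨2, h⟩]

theorem c2 : S_C2 := by
  intro d hd u v x y hu hv hx hy hs hsd hxy huv hvu
  simp only [Fin.sum_univ_three] at hs hsd hxy
  have a0 := hu 0
  have a1 := hu 1
  have a2 := hu 2
  have b0 := hv 0
  have b1 := hv 1
  have b2 := hv 2
  have h := c2_check d hd (u 0) (u 1) (u 2) (v 0) (v 1) (v 2) x (by omega) (by omega)
    (by omega) (by omega) (by omega) (by omega) (by omega) (by omega) (by omega) (by omega)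
    (by omega)
  simp only [c2t, Bool.or_eq_true] at h
  rcases h with ((h | h) | h) | h
  · exfalso
    have e1 : ((u 0 + u 1 + u 2 == v 0 + v 1 + v 2) && decide (1 ≤ v 0) && decide (1 ≤ v 1) &&
        decide (1 ≤ v 2) && decide (1 ≤ x) && decide (u 0 + u 1 + u 2 + x + 1 ≤ 2 * d)) = true := by
      simp only [Bool.and_eq_true, decide_eq_true_eq, beq_iff_eq]; omega
    rw [e1] at h
    simp at h
  · exfalso
    simp only [List.any_eq_true, beq_iff_eq] at h
    obtain ⟨p, hp, q, hq, hpq⟩ := h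
    obtain ⟨i, j, hij, rfl⟩ := pair_mem3 u p hp
    obtain ⟨k, rfl⟩ := elt_mem3 v q hq
    exact huv i j k hij hpq
  · exfalso
    simp only [List.any_eq_true, beq_iff_eq] at h
    obtain ⟨p, hp, q, hq, hpq⟩ := h
    obtain ⟨i, j, hij, rfl⟩ := pair_mem3 v p hp
    obtain ⟨k, rfl⟩ := elt_mem3 u q hq
    exact hvu i j k hij hpq
  · simp only [List.any_eq_true, beq_iff_eq, Bool.and_eq_true, Bool.or_eq_true,
      decide_eq_true_eq] at h
    obtain ⟨p, hp, q, hq, hpq, hr⟩ := h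
    obtain ⟨i, rfl⟩ := elt_mem3 u p hp
    obtain ⟨j, rfl⟩ := elt_mem3 v q hq
    exact ⟨i, j, hpq, by omega⟩

end Pool.Agent.Helper48.PQ.C12
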