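import Pool.Agent.Helper42.PQ.Spec
import Pool.Agent.Helper42.PQ.Base

/-! PQ part LN: all basic nodes are connected. -/

set_option autoImplicit false

namespace Pool.Agent.Helper48.PQ.LN

open Finset Pool.Agent.Helper42.PQ

theorem main (hL3 : S_L3) (hLA : S_LA) (hLB : S_LB) (hLC : S_LC) : S_LN := by
  intro ι _ _ u r d k D hr hk hc hs p q hp hq
  rcases Nat.lt_or_ge 3 k with hk4 | hk3
  swap
  · have hk' : k = 3 := le_antisymm hk3 hk
    subst hk'
    exact hL3 ι u r d D hr hc hs p q hp hq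
  have hk4' : 4 ≤ k := hk4
  have hne : D.Nonempty := by
    rw [← Finset.card_pos, hc]
    omega
  obtain ⟨o, hoD, ho⟩ := Finset.exists_max_image D u hne
  -- every node is connected to one centred at `o`
  have hto : ∀ p : Finset ι × ι, Nd u r d D p → ∃ Q : Finset ι, Nd u r d D (Q, o) ∧
      NCn u r d D p (Q, o) := by
    rintro ⟨P, x⟩ hP
    by_cases hoP : o ∈ P
    · obtain ⟨Q, _, h1, h2⟩ := hLB ι u r d k D o hr hk4' hc hs hoD ho P x hP hoP
      exact ⟨Q, h1, h2⟩
    · by_cases hxo : x = o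
      · subst hxo
        exact ⟨P, hP, Relation.EqvGen.refl _⟩
      · refine ⟨P, ?_, hLA ι u r d k D o hr hk4' hc hs hoD ho P x hP hoP hxo⟩
        obtain ⟨h1, h2, h3, h4, h5, h6⟩ := hP
        refine ⟨h1, hoD, h3, hoP, h5, ?_⟩
        exact h6.trans (Nat.add_le_add_left (ho x h2) _)
  have hex := Pool.Agent.Helper46.PV.exch (u := u) (r := r) (d := d) (D.erase o) (u o)
    (fun i hi => ho i (Finset.mem_of_mem_erase hi))
    (fun Q Q' => NCn u r d D (Q, o) (Q', o)) (fun P => Relation.EqvGen.refl _)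
    (fun P Q R h1 h2 => Relation.EqvGen.trans _ _ _ h1 h2) (by
      intro E b c hE hb hc' hbE hcE hbc hEr h1 h2 h3 h4
      have hoE : o ∉ E := fun h => (Finset.notMem_erase o D) (hE h)
      have hnd : ∀ x ∈ D.erase o, x ∉ E → sg u (insert x E) ≤ d → d ≤ sg u (insert x E) + u o →
          Nd u r d D (insert x E, o) := by
        intro x hx hxE h5 h6
        refine ⟨?_, hoD, ?_, ?_, h5, h6⟩
        · exact Finset.insert_subset (Finset.mem_of_mem_erase hx)
            (hE.trans (Finset.erase_subset _ _))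
        · change (insert x E).card = r
          rw [Finset.card_insert_of_notMem hxE, hEr]
        · intro h
          rcases Finset.mem_insert.1 h with h | h
          · exact (Finset.ne_of_mem_erase hx) h.symm
          · exact hoE h
      exact hLC ι u r d k D o hr hk4' hc hs hoD ho E c b hEr hcE hbE (Ne.symm hbc)
        (hnd c hc' hcE h3 h4) (hnd b hb hbE h1 h2))
  obtain ⟨Q, hQ, h1⟩ := hto p hp
  obtain ⟨Q', hQ', h2⟩ := hto q hq
  obtain ⟨a1, a2, a3, a4, a5, a6⟩ := hQ
  obtain ⟨b1, b2, b3, b4, b5, b6⟩ := hQ'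
  have h3 := hex _ Q Q' rfl
    (fun i hi => Finset.mem_erase.2 ⟨fun h => a4 (h ▸ hi), a1 hi⟩)
    (fun i hi => Finset.mem_erase.2 ⟨fun h => b4 (h ▸ hi), b1 hi⟩) a3 b3 a5 a6 b5 b6
  exact Relation.EqvGen.trans _ _ _ h1 (Relation.EqvGen.trans _ _ _ h3
    (Relation.EqvGen.symm _ _ h2))

end Pool.Agent.Helper48.PQ.LN
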